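import Pool.Agent.Q218.HB.Stm5

/-!
# Project HB3 (helper218), job TAL (helper220)
-/

set_option autoImplicit false

namespace Pool.Agent.Q220.HB3

open Pool.Agent.Q218.HB

theorem tal : S_TAL := by
  classical
  intro d n _ hn J _ V U μ K F S u e hB hU hVU he R hR
  have hR2 : 0 < R ^ 2 := by positivity
  -- the row identity
  have hrow : ∀ x, x ∉ S → x ∉ F → ∀ j, ∑ y, Hm hop U x y * u j y = ((e j - μ : ℝ) : ℂ) * u j x := by
    intro x hxS hxF j
    have h1 : ∀ y, Hm hop U x y * u j y =
        Hm hop V x y * u j y - (if y = x then (μ : ℂ) * u j x else 0) := by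
      intro y
      unfold Hm
      by_cases hxy : x = y
      · subst hxy
        rw [if_pos rfl, if_pos rfl, if_pos rfl, ← hVU x hxS]
        push_cast
        ring
      · rw [if_neg hxy, if_neg hxy, if_neg fun h => hxy h.symm]
        ring
    rw [Finset.sum_congr rfl fun y _ => h1 y, Finset.sum_sub_distrib, he j x hxF,
      Finset.sum_ite_eq' Finset.univ x, if_pos (Finset.mem_univ x)]
    push_cast
    ring
  have hone : ∀ x, ∑ j, ‖u j x‖ ^ 2 ≤ 1 := by
    intro x
    have h1 := hB (fun y => if y = x then 1 else 0)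
    have h2 : ∀ j, ∑ y, (if y = x then (1 : ℂ) else 0) * u j y = u j x := by
      intro j
      simp
    simp only [h2] at h1
    refine h1.trans (le_of_eq ?_)
    have h3 : ∀ y : Tor d n, ‖(if y = x then (1 : ℂ) else 0)‖ ^ 2 = if y = x then (1 : ℝ) else 0 := by
      intro y
      split_ifs <;> simp
    rw [Finset.sum_congr rfl fun y _ => h3 y]
    simp
  have hpt : ∀ x, ∑ j with R < |e j - μ|, ‖u j x‖ ^ 2 ≤
      (∑ y, ‖Hm hop U x y‖ ^ 2) / R ^ 2 + (if x ∈ F then 1 else 0) + (if x ∈ S then 1 else 0) := by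
    intro x
    have hB0 : 0 ≤ (∑ y, ‖Hm hop U x y‖ ^ 2) / R ^ 2 :=
      div_nonneg (Finset.sum_nonneg fun y _ => by positivity) hR2.le
    have h0F : (0 : ℝ) ≤ if x ∈ F then 1 else 0 := by split_ifs <;> norm_num
    have h0S : (0 : ℝ) ≤ if x ∈ S then 1 else 0 := by split_ifs <;> norm_num
    have hle1 : ∑ j with R < |e j - μ|, ‖u j x‖ ^ 2 ≤ 1 :=
      (Finset.sum_le_sum_of_subset_of_nonneg (Finset.filter_subset _ _)
        (fun j _ _ => by positivity)).trans (hone x)
    by_cases hxF : x ∈ F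
    · rw [if_pos hxF]
      linarith
    by_cases hxS : x ∈ S
    · rw [if_pos hxS]
      linarith
    rw [if_neg hxF, if_neg hxS, add_zero, add_zero, le_div_iff₀ hR2]
    have h1 := hB (fun y => Hm hop U x y)
    simp only [hrow x hxS hxF] at h1
    refine le_trans ?_ h1
    rw [Finset.sum_mul]
    refine (Finset.sum_le_sum (g := fun j => ‖((e j - μ : ℝ) : ℂ) * u j x‖ ^ 2) fun j hj => ?_).trans
      (Finset.sum_le_sum_of_subset_of_nonneg (Finset.filter_subset _ _) fun j _ _ => by positivity)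
    have hj' : R < |e j - μ| := (Finset.mem_filter.1 hj).2
    rw [norm_mul, Complex.norm_real, Real.norm_eq_abs, mul_pow, mul_comm]
    exact mul_le_mul_of_nonneg_right (pow_le_pow_left₀ hR.le hj'.le 2) (by positivity)
  rw [Finset.sum_comm]
  refine (Finset.sum_le_sum fun x _ => hpt x).trans ?_
  rw [Finset.sum_add_distrib, Finset.sum_add_distrib, ← Finset.sum_div]
  have h1 := div_le_div_of_nonneg_right (hm_hs hn hU) hR2.le
  have h2 : ∑ x : Tor d n, (if x ∈ F then (1 : ℝ) else 0) = F.card := by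
    simp
  have h3 : ∑ x : Tor d n, (if x ∈ S then (1 : ℝ) else 0) = S.card := by
    simp
  rw [h2, h3]
  linarith

end Pool.Agent.Q220.HB3
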